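import Mathlib
import Pool.Agent.K7.H21.CG.Unl

/-!
# Almost all unlabelled convex geometries are primitive (MP_0c861e, Q2)
-/

namespace Pool.Agent.Results.MP_0c861e_co.UnlabelledPrimitive

open Finset Pool.Agent.R129.CG
open Pool.Agent.K7.H21.CG (Cl cgSetoid prCl)

/-- The number of isomorphism classes of convex geometries on `n` elements. -/
noncomputable def U (n : ℕ) : ℕ := Nat.card (Quotient (cgSetoid n))

/-- The number of isomorphism classes of primitive convex geometries on `n` elements. -/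
noncomputable def Upr (n : ℕ) : ℕ :=
  {q : Quotient (cgSetoid n) | ∃ G : {G : Set (Set (Fin n)) // IsCG G},
    Quotient.mk (cgSetoid n) G = q ∧ Primitive G.1}.ncard

lemma U_succ (n : ℕ) : 2 ^ n * U n ≤ (n + 1) * U (n + 1) := Pool.Agent.K7.H21.CG.U_succ n

lemma U_le (n : ℕ) : U n ≤ 2 ^ 2 ^ n := by
  have h1 : U n ≤ num (Fin n) := by
    unfold U num
    exact Nat.card_le_card_of_surjective (Quotient.mk (cgSetoid n)) Quotient.mk_surjective
  have h := num_le (Fin n)
  rw [Nat.card_eq_fintype_card, Fintype.card_fin] at h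
  exact h1.trans h

lemma U_pos (n : ℕ) : 0 < U n := by
  have : Nonempty {G : Set (Set (Fin n)) // IsCG G} := by
    refine ⟨⟨Set.univ, trivial, fun _ _ _ _ => trivial, fun F _ hne => ?_⟩⟩
    have : (Fᶜ).Nonempty := by
      rw [Set.nonempty_compl]
      exact hne
    obtain ⟨x, hx⟩ := this
    exact ⟨x, hx, trivial⟩
  have : Nonempty (Quotient (cgSetoid n)) := this.map (Quotient.mk _)
  exact Nat.card_pos

lemma U_anti (m k : ℕ) (hk : 1 ≤ k) : 2 ^ (m.choose k) ≤ (m + 1).factorial * U (m + 1) := by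
  have h := num_antichain m k hk
  rw [← num_congr (finSuccEquiv m)] at h
  exact h.trans (Pool.Agent.K7.H21.CG.labelled_le (m + 1))

lemma U_add (b k : ℕ) : 2 ^ (k * b) * U b ≤ (b + 1) ^ k * U (b + k) := by
  induction k with
  | zero => simp
  | succ k ih =>
    have h := U_succ (b + k)
    have h2 : 2 ^ b * U (b + k) ≤ (b + 1) * U (b + k + 1) := by
      have h3 : 2 ^ k * (2 ^ b * U (b + k)) ≤ 2 ^ k * ((b + 1) * U (b + k + 1)) := by
        calc 2 ^ k * (2 ^ b * U (b + k)) = 2 ^ (b + k) * U (b + k) := by rw [pow_add]; ring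
          _ ≤ (b + k + 1) * U (b + k + 1) := h
          _ ≤ ((k + 1) * (b + 1)) * U (b + k + 1) := by
              apply Nat.mul_le_mul_right
              nlinarith
          _ ≤ (2 ^ k * (b + 1)) * U (b + k + 1) := by
              apply Nat.mul_le_mul_right
              apply Nat.mul_le_mul_right
              exact Nat.succ_le_of_lt Nat.lt_two_pow_self
          _ = 2 ^ k * ((b + 1) * U (b + k + 1)) := by ring
      exact Nat.le_of_mul_le_mul_left h3 (by positivity)
    calc 2 ^ ((k + 1) * b) * U b = 2 ^ b * (2 ^ (k * b) * U b) := by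
          rw [Nat.succ_mul, pow_add]; ring
      _ ≤ 2 ^ b * ((b + 1) ^ k * U (b + k)) := Nat.mul_le_mul_left _ ih
      _ = (b + 1) ^ k * (2 ^ b * U (b + k)) := by ring
      _ ≤ (b + 1) ^ k * ((b + 1) * U (b + k + 1)) := Nat.mul_le_mul_left _ h2
      _ = (b + 1) ^ (k + 1) * U (b + (k + 1)) := by rw [pow_succ]; ring_nf

lemma quarter (b : ℕ) (hb : 20 ≤ b) : b + 1 ≤ 2 ^ (b / 4) := by
  have key : ∀ c : ℕ, 5 ≤ c → 4 * c + 4 ≤ 2 ^ c := by
    intro c hc
    induction c, hc using Nat.le_induction with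
    | base => norm_num
    | succ c _ ih => rw [pow_succ]; omega
  have := key (b / 4) (by omega)
  omega

lemma U_add' (b k : ℕ) (hb : 20 ≤ b) : 2 ^ (k * (b - b / 4)) * U b ≤ U (b + k) := by
  have h := U_add b k
  have h1 : (b + 1) ^ k ≤ 2 ^ (k * (b / 4)) := by
    calc (b + 1) ^ k ≤ (2 ^ (b / 4)) ^ k := Nat.pow_le_pow_left (quarter b hb) k
      _ = 2 ^ (k * (b / 4)) := by rw [← pow_mul, mul_comm]
  have h2 : 2 ^ (k * (b / 4)) * (2 ^ (k * (b - b / 4)) * U b) ≤
      2 ^ (k * (b / 4)) * U (b + k) := by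
    calc 2 ^ (k * (b / 4)) * (2 ^ (k * (b - b / 4)) * U b) = 2 ^ (k * b) * U b := by
          rw [← mul_assoc, ← pow_add, ← mul_add]
          congr 3
          omega
      _ ≤ (b + 1) ^ k * U (b + k) := h
      _ ≤ 2 ^ (k * (b / 4)) * U (b + k) := Nat.mul_le_mul_right _ h1
  exact Nat.le_of_mul_le_mul_left h2 (by positivity)

/-- The terms with intermediate fibers. -/
lemma term (n a : ℕ) (ha : 3 ≤ a) (hab : 2 * a ≤ n + 1) (hn : 2 ^ 70 ≤ n) :
    U a * U (n + 1 - a) * 2 ^ n ≤ U n := by
  obtain ⟨b, hb⟩ : ∃ b, b = n + 1 - a := ⟨_, rfl⟩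
  have hnb : n = b + (a - 1) := by omega
  have hn' : 1180591620717411303424 ≤ n := by norm_num at hn; exact hn
  rw [← hb]
  have hb20 : 20 ≤ b := by omega
  have hadd := U_add' b (a - 1) hb20
  rw [← hnb] at hadd
  have ha2 := U_le a
  rcases Nat.lt_or_ge (16 * n) (2 ^ a) with hbig | hsmall
  · -- very large fibers
    have hmid := U_anti (n - 1) ((n - 1) / 2) (by omega)
    rw [show n - 1 + 1 = n by omega] at hmid
    set C := (n - 1).choose ((n - 1) / 2) with hC
    have hsum : 2 ^ (n - 1) ≤ n * C := by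
      rw [← Nat.sum_range_choose (n - 1), show n - 1 + 1 = n by omega]
      calc ∑ i ∈ range n, (n - 1).choose i ≤ ∑ _i ∈ range n, C :=
            sum_le_sum (fun i _ => Nat.choose_le_middle i (n - 1))
        _ = n * C := by rw [sum_const, card_range, smul_eq_mul]
    have hsq : ∀ n, 20 ≤ n → n * (n ^ 2 + n) ≤ 2 ^ (n - 2) := by
      intro n hn
      induction n, hn using Nat.le_induction with
      | base => norm_num
      | succ n hn ih =>
        have e1 : 2 ^ (n + 1 - 2) = 2 * 2 ^ (n - 2) := by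
          rw [show n + 1 - 2 = n - 2 + 1 by omega, pow_succ']
        have e2 : (n + 1) * ((n + 1) ^ 2 + (n + 1)) ≤ 2 * (n * (n ^ 2 + n)) := by
          have h20 : 20 * n ≤ n * n := Nat.mul_le_mul_right _ hn
          have h21 : 20 * (n * n) ≤ n * (n * n) := Nat.mul_le_mul_right _ hn
          nlinarith
        rw [e1]
        omega
    have hsq' := hsq n (by omega)
    have h1 : n * 2 ^ (b + 1) ≤ 2 ^ (n - 2) := by
      have h2 : 16 * (n * 2 ^ (b + 1)) ≤ 16 * 2 ^ (n - 2) := by
        calc 16 * (n * 2 ^ (b + 1)) = (16 * n) * 2 ^ (b + 1) := by ring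
          _ ≤ 2 ^ a * 2 ^ (b + 1) := Nat.mul_le_mul_right _ hbig.le
          _ = 2 ^ (n + 2) := by rw [← pow_add]; congr 1; omega
          _ = 16 * 2 ^ (n - 2) := by
              rw [show n + 2 = 4 + (n - 2) by omega, pow_add]; norm_num
      omega
    have h3 : 2 ^ (b + 1) + (n ^ 2 + n) ≤ C := by
      have h4 : n * (2 ^ (b + 1) + (n ^ 2 + n)) ≤ n * C := by
        refine le_trans ?_ hsum
        have e : 2 ^ (n - 1) = 2 ^ (n - 2) + 2 ^ (n - 2) := by
          rw [show n - 1 = n - 2 + 1 by omega, pow_succ]; ring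
        rw [e, mul_add]
        exact Nat.add_le_add h1 hsq'
      exact Nat.le_of_mul_le_mul_left h4 (by omega)
    have hbb := U_le b
    have hab' : 2 ^ a ≤ 2 ^ b := Nat.pow_le_pow_right (by norm_num) (by omega)
    have hfac : n.factorial ≤ 2 ^ (n ^ 2) := by
      calc n.factorial ≤ n ^ n := Nat.factorial_le_pow n
        _ ≤ (2 ^ n) ^ n := Nat.pow_le_pow_left Nat.lt_two_pow_self.le n
        _ = 2 ^ (n ^ 2) := by rw [← pow_mul, sq]
    have h5 : 2 ^ (n ^ 2) * (U a * U b * 2 ^ n) ≤ 2 ^ (n ^ 2) * U n := by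
      calc 2 ^ (n ^ 2) * (U a * U b * 2 ^ n) ≤ 2 ^ (n ^ 2) * (2 ^ 2 ^ a * 2 ^ 2 ^ b * 2 ^ n) := by
            gcongr
        _ = 2 ^ (n ^ 2 + (2 ^ a + 2 ^ b + n)) := by rw [← pow_add, ← pow_add, ← pow_add]
        _ ≤ 2 ^ C := by
            apply Nat.pow_le_pow_right (by norm_num)
            rw [pow_succ] at h3
            omega
        _ ≤ n.factorial * U n := hmid
        _ ≤ 2 ^ (n ^ 2) * U n := Nat.mul_le_mul_right _ hfac
    exact Nat.le_of_mul_le_mul_left h5 (by positivity)
  · have key : 2 ^ a + n ≤ (a - 1) * (b - b / 4) := by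
      obtain ⟨m, hm⟩ : ∃ m, m = b - b / 4 := ⟨_, rfl⟩
      rw [← hm]
      have hm4 : 3 * b ≤ 4 * m := by omega
      rcases Nat.lt_or_ge a 4 with h4 | h4
      · have h3 : a = 3 := by omega
        subst h3
        norm_num
        omega
      · rcases Nat.lt_or_ge a 65 with h21 | h21
        · have h5 : 2 ^ a ≤ 2 ^ 64 := Nat.pow_le_pow_right (by norm_num) (by omega)
          have h6 : 3 * m ≤ (a - 1) * m := Nat.mul_le_mul_right _ (by omega)
          norm_num at h5
          omega
        · have h6 : 64 * m ≤ (a - 1) * m := Nat.mul_le_mul_right _ (by omega)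
          omega
    calc U a * U b * 2 ^ n ≤ 2 ^ 2 ^ a * U b * 2 ^ n := by gcongr
      _ = 2 ^ (2 ^ a + n) * U b := by rw [pow_add]; ring
      _ ≤ 2 ^ ((a - 1) * (b - b / 4)) * U b := by
          gcongr
          norm_num
      _ ≤ U n := hadd

lemma N_bound (n : ℕ) (hn : 2 ^ 70 ≤ n) :
    Pool.Agent.K7.H21.CG.NP n * 2 ^ n ≤ n * (32 * n ^ 2 * U n) := by
  have hn' : 1180591620717411303424 ≤ n := by norm_num at hn; exact hn
  have hprev := U_succ (n - 1)
  rw [show n - 1 + 1 = n by omega] at hprev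
  have h2 := U_le 2
  have h2' : U 2 ≤ 16 := by simpa using h2
  have e2 : 2 ^ n = 2 * 2 ^ (n - 1) := by
    rw [← pow_succ']; congr 1; omega
  have hn2 : n ≤ n ^ 2 := by nlinarith
  have each : ∀ j ∈ range n, (if 2 ≤ j then U j * ((n + 1 - j) * U (n + 1 - j)) else 0) * 2 ^ n ≤
      32 * n ^ 2 * U n := by
    intro j hj
    rw [mem_range] at hj
    split_ifs with hc
    · by_cases hj2 : j = 2
      · subst hj2
        rw [show n + 1 - 2 = n - 1 by omega]
        calc U 2 * ((n - 1) * U (n - 1)) * 2 ^ n ≤ 16 * (n * U (n - 1)) * 2 ^ n := by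
              gcongr; omega
          _ = 32 * n * (2 ^ (n - 1) * U (n - 1)) := by rw [e2]; ring
          _ ≤ 32 * n * (n * U n) := Nat.mul_le_mul_left _ hprev
          _ = 32 * n ^ 2 * U n := by ring
      · by_cases hj3 : j = n - 1
        · subst hj3
          rw [show n + 1 - (n - 1) = 2 by omega]
          calc U (n - 1) * (2 * U 2) * 2 ^ n ≤ U (n - 1) * (2 * 16) * 2 ^ n := by gcongr
            _ = 64 * (2 ^ (n - 1) * U (n - 1)) := by rw [e2]; ring
            _ ≤ 64 * (n * U n) := Nat.mul_le_mul_left _ hprev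
            _ = (64 * n) * U n := by ring
            _ ≤ (32 * n ^ 2) * U n := by
                apply Nat.mul_le_mul_right
                nlinarith
        · have hT : U j * U (n + 1 - j) * 2 ^ n ≤ U n := by
            rcases Nat.lt_or_ge (n + 1) (2 * j) with h5 | h5
            · have := term n (n + 1 - j) (by omega) (by omega) hn
              rw [show n + 1 - (n + 1 - j) = j by omega] at this
              rw [mul_comm (U j)]
              exact this
            · exact term n j (by omega) h5 hn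
          calc U j * ((n + 1 - j) * U (n + 1 - j)) * 2 ^ n =
              (n + 1 - j) * (U j * U (n + 1 - j) * 2 ^ n) := by ring
            _ ≤ n * U n := Nat.mul_le_mul (by omega) hT
            _ ≤ 32 * n ^ 2 * U n := by
                apply Nat.mul_le_mul_right
                nlinarith
    · simp
  calc Pool.Agent.K7.H21.CG.NP n * 2 ^ n ≤
        (∑ j ∈ range n, if 2 ≤ j then U j * ((n + 1 - j) * U (n + 1 - j)) else 0) * 2 ^ n :=
        Nat.mul_le_mul_right _ (Pool.Agent.K7.H21.CG.NP_le n)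
    _ = ∑ j ∈ range n, (if 2 ≤ j then U j * ((n + 1 - j) * U (n + 1 - j)) else 0) * 2 ^ n :=
        sum_mul _ _ _
    _ ≤ ∑ _j ∈ range n, 32 * n ^ 2 * U n := sum_le_sum each
    _ = n * (32 * n ^ 2 * U n) := by
        rw [sum_const, card_range, smul_eq_mul]

/-- **Result.** The proportion of the isomorphism classes of primitive convex geometries among the
isomorphism classes of convex geometries on `n` elements tends to `1`. -/
theorem result : Filter.Tendsto (fun n : ℕ => (Upr n : ℝ) / (U n : ℝ)) Filter.atTop (nhds 1) := by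
  have h1 : Filter.Tendsto (fun n : ℕ => 32 * ((n : ℝ) ^ 3 / 2 ^ n)) Filter.atTop (nhds 0) := by
    have := (tendsto_pow_const_div_const_pow_of_one_lt 3 (by norm_num : (1 : ℝ) < 2)).const_mul
      32
    simpa using this
  have h2 : Filter.Tendsto (fun n : ℕ => (1 : ℝ) - 32 * ((n : ℝ) ^ 3 / 2 ^ n)) Filter.atTop
      (nhds 1) := by
    have := h1.const_sub 1
    simpa using this
  have heq : ∀ n, U n = Upr n + Pool.Agent.K7.H21.CG.NP n := Pool.Agent.K7.H21.CG.U_eq
  refine tendsto_of_tendsto_of_tendsto_of_le_of_le' h2 tendsto_const_nhds ?_ ?_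
  · rw [Filter.eventually_atTop]
    refine ⟨2 ^ 70, fun n hn => ?_⟩
    have hL : (0 : ℝ) < U n := by exact_mod_cast U_pos n
    have h3 := N_bound n hn
    have h4 : n * (32 * n ^ 2 * U n) = 32 * n ^ 3 * U n := by ring
    rw [h4] at h3
    have h5 : ((Pool.Agent.K7.H21.CG.NP n : ℝ)) * 2 ^ n ≤ 32 * (n : ℝ) ^ 3 * U n := by
      exact_mod_cast h3
    have h6 : (U n : ℝ) = Upr n + Pool.Agent.K7.H21.CG.NP n := by exact_mod_cast heq n
    have hp : (0 : ℝ) < 2 ^ n := by positivity
    have h7 : (Pool.Agent.K7.H21.CG.NP n : ℝ) / U n ≤ 32 * ((n : ℝ) ^ 3 / 2 ^ n) := by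
      rw [div_le_iff₀ hL, mul_div_assoc', div_mul_eq_mul_div, le_div_iff₀ hp]
      exact h5
    have h8 : (Upr n : ℝ) / U n = 1 - (Pool.Agent.K7.H21.CG.NP n : ℝ) / U n := by
      rw [eq_sub_iff_add_eq, ← add_div, ← h6, div_self hL.ne']
    rw [h8]
    linarith
  · refine Filter.Eventually.of_forall (fun n => ?_)
    have hL : (0 : ℝ) < U n := by exact_mod_cast U_pos n
    rw [div_le_one hL]
    have h6 : (U n : ℝ) = Upr n + Pool.Agent.K7.H21.CG.NP n := by exact_mod_cast heq n
    have : (0 : ℝ) ≤ Pool.Agent.K7.H21.CG.NP n := by positivity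
    linarith

end Pool.Agent.Results.MP_0c861e_co.UnlabelledPrimitive
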